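import Pool.Agent.CF3.Family2

/-!
# Infinitely many solutions of `x + y + z = 1` in `B_{2,j}` for every `j ≥ 2`
-/

namespace Pool.Agent.Results.MP_a07d0e_nt.SjInfinite

/-- The Gauss map `x ↦ {1/x}`. -/
noncomputable def gauss (x : ℝ) : ℝ := Int.fract (1 / x)

/-- The partial quotient `a_k(x)`, `k ≥ 1`, of an irrational `x` in `(0,1)`, so that
`x = 1/(a_1 + 1/(a_2 + ⋯))`: the integer part of `1/y`, `y` the image of `x` under `k - 1` steps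
of the Gauss map. -/
noncomputable def pq (x : ℝ) (k : ℕ) : ℤ := ⌊1 / (gauss^[k - 1] x)⌋

/-- The set `B_{B,j}`: irrational `x` in `(0,1)` with `a_k(x) ≤ B + 1` for `1 ≤ k ≤ j` and
`a_k(x) ≤ B` for `k > j`. -/
def BB (B : ℤ) (j : ℕ) : Set ℝ :=
  {x | 0 < x ∧ x < 1 ∧ Irrational x ∧ (∀ k, 1 ≤ k → k ≤ j → pq x k ≤ B + 1) ∧
    ∀ k, j < k → pq x k ≤ B}

/-- The set `S_j` of the triples `x ≤ y ≤ z` of elements of `B_{2,j}` with `x + y + z = 1`. -/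
def S (j : ℕ) : Set (ℝ × ℝ × ℝ) :=
  {t | t.1 ∈ BB 2 j ∧ t.2.1 ∈ BB 2 j ∧ t.2.2 ∈ BB 2 j ∧ t.1 ≤ t.2.1 ∧ t.2.1 ≤ t.2.2 ∧
    t.1 + t.2.1 + t.2.2 = 1}

lemma BB_eq (j : ℕ) : BB 2 j = CF3.B2 j := by
  have h : ∀ x k, pq x k = CF3.digit x k := fun _ _ => rfl
  ext x
  unfold BB CF3.B2
  simp only [Set.mem_setOf_eq, h]
  norm_num

/-- For every `j ≥ 2` the set `S_j` is infinite. -/
theorem result : ∀ j : ℕ, 2 ≤ j → (S j).Infinite := by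
  intro j hj
  have h : S j = CF3.S j := by
    unfold S CF3.S
    rw [BB_eq]
  rw [h]
  exact CF3.S_infinite hj

end Pool.Agent.Results.MP_a07d0e_nt.SjInfinite
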